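import Pool.Agent.H329R3.NU.Stmts

set_option autoImplicit false

open MeasureTheory Set Filter Topology

namespace Pool.Agent.H941R3.NU

open Pool.Agent.H329R3.NU

variable {h : ℝ × ℝ → ℝ}

theorem dy_c1 (hh : ContDiff ℝ 2 h) : ContDiff ℝ 1 (dy h) := by
  have h1 : ContDiff ℝ 1 (fderiv ℝ h) := hh.fderiv_right (by norm_num)
  exact h1.clm_apply contDiff_const

theorem dy_c0 (hh : ContDiff ℝ 1 h) : Continuous (dy h) := by
  have h1 : Continuous (fderiv ℝ h) := hh.continuous_fderiv one_ne_zero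
  exact h1.clm_apply continuous_const

theorem dy_ev {z : ℝ × ℝ} (hz : z ∉ tsupport h) : dy h =ᶠ[𝓝 z] 0 := by
  have h1 := (notMem_tsupport_iff_eventuallyEq.1 hz).fderiv (𝕜 := ℝ)
  filter_upwards [h1] with w hw
  simp [dy, hw]

theorem dy_zero {z : ℝ × ℝ} (hz : z ∉ tsupport h) : dy h z = 0 := (dy_ev hz).eq_of_nhds

/-- the nonconstant part of `W` -/
noncomputable def om (h : ℝ × ℝ → ℝ) (z : ℝ × ℝ) : ℝ := dy h z / z.1 ^ 2

theorem W_eq (h : ℝ × ℝ → ℝ) (z : ℝ × ℝ) : W h z = 1 + om h z := rfl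

theorem om_c1 (hh : ContDiff ℝ 2 h) (hs : tsupport h ⊆ Om) : ContDiff ℝ 1 (om h) := by
  rw [contDiff_iff_contDiffAt]
  intro z
  by_cases hz : z ∈ tsupport h
  · have h1 : z.1 ≠ 0 := ne_of_gt (hs hz).1.1
    exact (dy_c1 hh).contDiffAt.div (contDiff_fst.pow 2).contDiffAt (pow_ne_zero 2 h1)
  · have h1 : om h =ᶠ[𝓝 z] fun _ => 0 := by
      filter_upwards [dy_ev hz] with w hw
      simp [om, hw]
    exact contDiffAt_const.congr_of_eventuallyEq h1

theorem om_cpt (hc : HasCompactSupport h) : HasCompactSupport (om h) := by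
  have h1 : HasCompactSupport (dy h) := hc.fderiv_apply (𝕜 := ℝ) (1, 0)
  exact h1.mono (fun z hz hz' => hz (by simp [om, hz']))

theorem W_c1 (hh : ContDiff ℝ 2 h) (hs : tsupport h ⊆ Om) : ContDiff ℝ 1 (W h) :=
  contDiff_const.add (om_c1 hh hs)

theorem dyW (h : ℝ × ℝ → ℝ) : dy (W h) = dy (om h) := by
  funext z
  have : W h = fun z => 1 + om h z := rfl
  unfold dy
  rw [this, fderiv_const_add]

theorem dyW_cpt (hc : HasCompactSupport h) : HasCompactSupport (dy (W h)) := by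
  rw [dyW]
  exact (om_cpt hc).fderiv_apply (𝕜 := ℝ) (1, 0)

theorem ibp {u g : ℝ × ℝ → ℝ} (hu : ContDiff ℝ 1 u) (hg : ContDiff ℝ 1 g)
    (hgc : HasCompactSupport g) : ∫ z, u z * dy g z = -∫ z, dy u z * g z := by
  have hgc' : HasCompactSupport (dy g) := hgc.fderiv_apply (𝕜 := ℝ) (1, 0)
  refine integral_mul_fderiv_eq_neg_fderiv_mul_of_integrable (v := ((1 : ℝ), (0 : ℝ))) ?_ ?_ ?_
    (fun x _ => (hu.differentiable one_ne_zero).differentiableAt)
    (fun x _ => (hg.differentiable one_ne_zero).differentiableAt)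
  · exact ((dy_c0 hu).mul hg.continuous).integrable_of_hasCompactSupport hgc.mul_left
  · exact (hu.continuous.mul (dy_c0 hg)).integrable_of_hasCompactSupport hgc'.mul_left
  · exact (hu.continuous.mul hg.continuous).integrable_of_hasCompactSupport hgc.mul_left

theorem intOm {f : ℝ × ℝ → ℝ} (hf : Continuous f) : IntegrableOn f Om := by
  have hK : IsCompact (Icc (0 : ℝ) 1 ×ˢ Icc (0 : ℝ) 1) := isCompact_Icc.prod isCompact_Icc
  exact (hf.continuousOn.integrableOn_compact hK).mono_set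
    (prod_mono Ioo_subset_Icc_self Ioo_subset_Icc_self)

theorem Om_meas : MeasurableSet Om := measurableSet_Ioo.prod measurableSet_Ioo

/-- first term -/
theorem first (hh : ContDiff ℝ 2 h) (hc : HasCompactSupport h) (hs : tsupport h ⊆ Om)
    {h' : ℝ × ℝ → ℝ} (hh' : ContDiff ℝ 2 h') (hc' : HasCompactSupport h') (hs' : tsupport h' ⊆ Om)
    {η : ℝ} (hη : ∀ z, |h' z - h z| ≤ η) :
    |∫ z in Om, W h z * (dy h' z - dy h z)| ≤ η * ∫ z, |dy (W h) z| := by
  set g : ℝ × ℝ → ℝ := fun z => h' z - h z with hg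
  have hgc : ContDiff ℝ 1 g := (hh'.sub hh).of_le (by norm_num)
  have hgk : HasCompactSupport g := hc'.sub hc
  have hdg : ∀ z, dy g z = dy h' z - dy h z := by
    intro z
    unfold dy
    rw [hg, fderiv_fun_sub (hh'.differentiable (by norm_num)).differentiableAt
      (hh.differentiable (by norm_num)).differentiableAt]
    rfl
  have h1 : ∫ z in Om, W h z * (dy h' z - dy h z) = ∫ z, W h z * dy g z := by
    rw [setIntegral_eq_integral_of_forall_compl_eq_zero]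
    · simp_rw [hdg]
    · intro z hz
      rw [dy_zero (fun hk => hz (hs' hk)), dy_zero (fun hk => hz (hs hk)), sub_zero, mul_zero]
  rw [h1, ibp (W_c1 hh hs) hgc hgk, abs_neg, ← Real.norm_eq_abs]
  have hint : Integrable (fun z => |dy (W h) z|) :=
    ((dy_c0 (W_c1 hh hs)).integrable_of_hasCompactSupport (dyW_cpt hc)).abs
  rw [← integral_const_mul]
  refine norm_integral_le_of_norm_le (hint.const_mul η) (Eventually.of_forall fun z => ?_)
  rw [norm_mul, Real.norm_eq_abs, Real.norm_eq_abs, mul_comm]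
  exact mul_le_mul_of_nonneg_right (hη z) (abs_nonneg _)

/-- the phase -/
noncomputable def Ps (h : ℝ × ℝ → ℝ) (z : ℝ × ℝ) : ℝ := z.1 ^ 3 / 3 + h z

theorem Ps_c (hh : ContDiff ℝ 2 h) : ContDiff ℝ 2 (Ps h) :=
  ((contDiff_fst.pow 3).div_const 3).add hh

theorem dy_Ps (hh : ContDiff ℝ 2 h) (z : ℝ × ℝ) : dy (Ps h) z = z.1 ^ 2 + dy h z := by
  have h1 : HasFDerivAt h (fderiv ℝ h z) z :=
    (hh.differentiable (by norm_num)).differentiableAt.hasFDerivAt
  have h2 : HasFDerivAt (fun z : ℝ × ℝ => z.1) (ContinuousLinearMap.fst ℝ ℝ ℝ) z :=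
    hasFDerivAt_fst
  have h3 := ((h2.pow 3).const_mul (1 / 3 : ℝ)).add h1
  have h4 : Ps h = (fun z : ℝ × ℝ => (1 / 3 : ℝ) * z.1 ^ 3) + h := by
    funext w
    simp only [Ps, Pi.add_apply]
    ring
  unfold dy
  rw [h4, h3.fderiv]
  simp

theorem dy_sin (hh : ContDiff ℝ 2 h) (m : ℝ) (z : ℝ × ℝ) :
    dy (fun z => Real.sin (m * Ps h z)) z = Real.cos (m * Ps h z) * (m * (z.1 ^ 2 + dy h z)) := by
  have h1 : HasFDerivAt (Ps h) (fderiv ℝ (Ps h) z) z :=
    ((Ps_c hh).differentiable (by norm_num)).differentiableAt.hasFDerivAt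
  have h2 := (h1.const_mul m).sin
  have h3 := dy_Ps hh z
  unfold dy at h3 ⊢
  rw [h2.fderiv]
  simp only [smul_apply, smul_eq_mul, h3]

/-- second term -/
theorem second (hh : ContDiff ℝ 2 h) (hs : tsupport h ⊆ Om) {a : ℝ × ℝ → ℝ}
    (ha : ContDiff ℝ 2 a) (hac : HasCompactSupport a) (has : tsupport a ⊆ Om) {m : ℝ} (hm : 0 < m) :
    |∫ z in Om, a z ^ 2 * W h z ^ 2 * z.1 ^ 2 * Real.cos (m * Ps h z)| ≤
      (1 / m) * ∫ z, |dy (fun z => a z ^ 2 * W h z) z| := by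
  set g : ℝ × ℝ → ℝ := fun z => a z ^ 2 * W h z with hg
  have hgc : ContDiff ℝ 1 g := ((ha.of_le (by norm_num)).pow 2).mul (W_c1 hh hs)
  have hgk : HasCompactSupport g := by
    refine hac.mono fun z hz hz' => hz ?_
    simp [hg, hz']
  have hS : ContDiff ℝ 1 (fun z => Real.sin (m * Ps h z)) :=
    ((contDiff_const.mul (Ps_c hh)).sin).of_le (by norm_num)
  have h0 : ∀ z ∈ Om, a z ^ 2 * W h z ^ 2 * z.1 ^ 2 * Real.cos (m * Ps h z) =
      (1 / m) * (dy (fun z => Real.sin (m * Ps h z)) z * g z) := by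
    intro z hz
    have hz1 : z.1 ≠ 0 := ne_of_gt hz.1.1
    simp only [dy_sin hh, hg]
    have e1 : z.1 ^ 2 + dy h z = z.1 ^ 2 * W h z := by
      rw [W]
      field_simp
    rw [e1]
    field_simp
  have h1 : ∫ z in Om, a z ^ 2 * W h z ^ 2 * z.1 ^ 2 * Real.cos (m * Ps h z) =
      ∫ z, (1 / m) * (dy (fun z => Real.sin (m * Ps h z)) z * g z) := by
    rw [setIntegral_congr_fun Om_meas h0]
    apply setIntegral_eq_integral_of_forall_compl_eq_zero
    intro z hz
    have h2 : a z = 0 := by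
      by_contra h3
      exact hz (has (subset_tsupport a h3))
    have h3 : g z = 0 := by
      show a z ^ 2 * W h z = 0
      rw [h2]
      ring
    rw [h3, mul_zero, mul_zero]
  rw [h1, integral_const_mul, abs_mul, abs_of_pos (by positivity : (0:ℝ) < 1 / m)]
  apply mul_le_mul_of_nonneg_left _ (by positivity)
  have h2 : ∫ z, dy (fun z => Real.sin (m * Ps h z)) z * g z =
      -∫ z, Real.sin (m * Ps h z) * dy g z := by
    rw [ibp hS hgc hgk, neg_neg]
  rw [h2, abs_neg, ← Real.norm_eq_abs]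
  have hgk' : HasCompactSupport (dy g) := hgk.fderiv_apply (𝕜 := ℝ) (1, 0)
  have hint : Integrable (fun z => |dy g z|) :=
    ((dy_c0 hgc).integrable_of_hasCompactSupport hgk').abs
  refine norm_integral_le_of_norm_le hint (Eventually.of_forall fun z => ?_)
  rw [norm_mul, Real.norm_eq_abs, Real.norm_eq_abs]
  calc |Real.sin (m * Ps h z)| * |dy g z| ≤ 1 * |dy g z| :=
        mul_le_mul_of_nonneg_right (Real.abs_sin_le_one _) (abs_nonneg _)
    _ = |dy g z| := one_mul _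

theorem taskGain : TaskGain := by
  intro hPF A κ h a _ _ hSt hAmp ε hε
  obtain ⟨hP1, C, hC, hP2⟩ := hPF κ h a hSt.smooth hSt.cpt hSt.supp hAmp.smooth hAmp.cpt hAmp.supp
  have hh := hSt.smooth
  have hs := hSt.supp
  have ha := hAmp.smooth
  set L1 : ℝ := ∫ z, |dy (W h) z| with hL1
  set L2 : ℝ := ∫ z, |dy (fun z => a z ^ 2 * W h z) z| with hL2
  set L3 : ℝ := ∫ z in Om, |a z| * |W h z| * z.1 ^ 2 with hL3
  have hWc : Continuous (W h) := (W_c1 hh hs).continuous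
  have hac : Continuous a := ha.continuous
  set K : ℝ := 2 * (C * L1) + L2 / 4 + 2 * (C * L3) with hK
  refine ⟨⌈K / ε⌉₊, fun n hn hn0 => ?_⟩
  have hnr : (0 : ℝ) < n := by exact_mod_cast hn0
  have hKn : K / n ≤ ε := by
    rw [div_le_iff₀ hnr]
    have h1 : K / ε ≤ n := Nat.ceil_le.1 hn
    rw [div_le_iff₀ hε] at h1
    linarith
  obtain ⟨hq1, hq2, hq3⟩ := hP1 n hn0
  obtain ⟨hr1, hr2⟩ := hP2 n hn0
  set h' := pert a h n with hh'
  have hW'c : Continuous (W h') := (W_c1 hq1 hq3).continuous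
  have hdy : Continuous (dy h) := (dy_c1 hh).continuous
  have hdy' : Continuous (dy h') := (dy_c1 hq1).continuous
  have hPs : Continuous (Ps h) := (Ps_c hh).continuous
  have hF := first hh hSt.cpt hs hq1 hq2 hq3 hr1
  have hS := second hh hs ha hAmp.cpt hAmp.supp (m := 2 * n) (by positivity)
  rw [← hL1] at hF
  rw [← hL2] at hS
  -- pointwise inequality
  have hpt : ∀ z ∈ Om, W h z ^ 2 * z.1 ^ 2 + 2 * (W h z * (dy h' z - dy h z)) +
      (a z ^ 2 * W h z ^ 2 * z.1 ^ 2) / 2 +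
      (a z ^ 2 * W h z ^ 2 * z.1 ^ 2 * Real.cos (2 * n * Ps h z)) / 2 -
      2 * (C / n) * (|a z| * |W h z| * z.1 ^ 2) ≤ W h' z ^ 2 * z.1 ^ 2 := by
    intro z hz
    have hz1 : z.1 ≠ 0 := ne_of_gt hz.1.1
    have hzQ : z ∈ Qc := ⟨⟨hz.1.1, hz.1.2.le⟩, hz.2.1.le, hz.2.2.le⟩
    have h1 := (hr2 z hzQ).1
    have e1 : dy h' z - dy h z = (W h' z - W h z) * z.1 ^ 2 := by
      rw [W, W]
      field_simp
      ring
    have e2 : Real.cos (2 * n * Ps h z) = 2 * Real.cos (n * (z.1 ^ 3 / 3 + h z)) ^ 2 - 1 := by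
      rw [← Real.cos_two_mul]
      congr 1
      rw [Ps]
      ring
    set c := Real.cos (n * (z.1 ^ 3 / 3 + h z)) with hc
    have hc1 : |c| ≤ 1 := Real.abs_cos_le_one _
    rw [e1, e2]
    set w := W h z
    set w' := W h' z
    set e := w' - (1 + a z * c) * w with he
    have e3 : w' = w + a z * c * w + e := by rw [he]; ring
    have h5 : -(|a z| * |w| * (C / n)) ≤ a z * c * w * e := by
      have h6 : |a z * c * w * e| ≤ |a z| * |w| * (C / n) := by
        rw [abs_mul, abs_mul, abs_mul]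
        have h7 : |a z| * |c| * |w| ≤ |a z| * |w| := by
          calc |a z| * |c| * |w| ≤ |a z| * 1 * |w| := by gcongr
            _ = |a z| * |w| := by ring
        exact mul_le_mul h7 h1 (abs_nonneg _) (by positivity)
      have := neg_abs_le (a z * c * w * e)
      linarith
    have h8 : 0 ≤ e ^ 2 := sq_nonneg e
    have h9 : 0 ≤ z.1 ^ 2 := sq_nonneg _
    have key : w ^ 2 + 2 * (w * (w' - w)) + a z ^ 2 * w ^ 2 / 2 +
        a z ^ 2 * w ^ 2 * (2 * c ^ 2 - 1) / 2 - 2 * (C / n) * (|a z| * |w|) ≤ w' ^ 2 := by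
      have e4 : w' ^ 2 = w ^ 2 + 2 * (w * (w' - w)) + a z ^ 2 * c ^ 2 * w ^ 2 +
          2 * (a z * c * w * e) + e ^ 2 := by
        rw [e3]; ring
      rw [e4]
      linarith
    have := mul_le_mul_of_nonneg_right key h9
    linarith
  have hi1 : IntegrableOn (fun z => W h z ^ 2 * z.1 ^ 2) Om := intOm (by fun_prop)
  have hi2 : IntegrableOn (fun z => 2 * (W h z * (dy h' z - dy h z))) Om := intOm (by fun_prop)
  have hi3 : IntegrableOn (fun z => (a z ^ 2 * W h z ^ 2 * z.1 ^ 2) / 2) Om := intOm (by fun_prop)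
  have hi4 : IntegrableOn (fun z =>
      (a z ^ 2 * W h z ^ 2 * z.1 ^ 2 * Real.cos (2 * n * Ps h z)) / 2) Om := intOm (by fun_prop)
  have hi5 : IntegrableOn (fun z => 2 * (C / n) * (|a z| * |W h z| * z.1 ^ 2)) Om :=
    intOm (by fun_prop)
  have hi6 : IntegrableOn (fun z => W h' z ^ 2 * z.1 ^ 2) Om := intOm (by fun_prop)
  have hi12 : IntegrableOn (fun z => W h z ^ 2 * z.1 ^ 2 +
      2 * (W h z * (dy h' z - dy h z))) Om := hi1.add hi2
  have hi123 : IntegrableOn (fun z => W h z ^ 2 * z.1 ^ 2 + 2 * (W h z * (dy h' z - dy h z)) +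
      (a z ^ 2 * W h z ^ 2 * z.1 ^ 2) / 2) Om := hi12.add hi3
  have hi1234 : IntegrableOn (fun z => W h z ^ 2 * z.1 ^ 2 + 2 * (W h z * (dy h' z - dy h z)) +
      (a z ^ 2 * W h z ^ 2 * z.1 ^ 2) / 2 +
      (a z ^ 2 * W h z ^ 2 * z.1 ^ 2 * Real.cos (2 * n * Ps h z)) / 2) Om := hi123.add hi4
  have hall : IntegrableOn (fun z => W h z ^ 2 * z.1 ^ 2 + 2 * (W h z * (dy h' z - dy h z)) +
      (a z ^ 2 * W h z ^ 2 * z.1 ^ 2) / 2 +
      (a z ^ 2 * W h z ^ 2 * z.1 ^ 2 * Real.cos (2 * n * Ps h z)) / 2 -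
      2 * (C / n) * (|a z| * |W h z| * z.1 ^ 2)) Om := hi1234.sub hi5
  have hmono := setIntegral_mono_on hall hi6 Om_meas (fun z hz => hpt z hz)
  have hsum : ∫ z in Om, (W h z ^ 2 * z.1 ^ 2 + 2 * (W h z * (dy h' z - dy h z)) +
      (a z ^ 2 * W h z ^ 2 * z.1 ^ 2) / 2 +
      (a z ^ 2 * W h z ^ 2 * z.1 ^ 2 * Real.cos (2 * n * Ps h z)) / 2 -
      2 * (C / n) * (|a z| * |W h z| * z.1 ^ 2)) =
      J h + 2 * (∫ z in Om, W h z * (dy h' z - dy h z)) +
      (∫ z in Om, a z ^ 2 * W h z ^ 2 * z.1 ^ 2) / 2 +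
      (∫ z in Om, a z ^ 2 * W h z ^ 2 * z.1 ^ 2 * Real.cos (2 * n * Ps h z)) / 2 -
      2 * (C / n) * L3 := by
    rw [integral_sub hi1234 hi5, integral_add hi123 hi4, integral_add hi12 hi3,
      integral_add hi1 hi2, integral_const_mul, integral_const_mul, integral_div, integral_div, J]
  have hmono' : J h + 2 * (∫ z in Om, W h z * (dy h' z - dy h z)) +
      (∫ z in Om, a z ^ 2 * W h z ^ 2 * z.1 ^ 2) / 2 +
      (∫ z in Om, a z ^ 2 * W h z ^ 2 * z.1 ^ 2 * Real.cos (2 * n * Ps h z)) / 2 -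
      2 * (C / n) * L3 ≤ J h' := by
    rw [← hsum]
    exact hmono
  have hF' := (abs_le.1 hF).1
  have hS' := (abs_le.1 hS).1
  have e5 : K / n = 2 * (C / n * L1) + 1 / (2 * n) * L2 / 2 + 2 * (C / n) * L3 := by
    rw [hK]
    field_simp
    ring
  rw [e5] at hKn
  linarith

end Pool.Agent.H941R3.NU
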